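import Mathlib

set_option autoImplicit false

namespace Pool.Agent.Results.MP_cc703c_co.Realize

open Finset

/-- The maximal faces, with vertices A0, A1, B1, B2, B3, B4, C, D1, D2, D3 numbered 0 to 9. -/
def maxFaces : List (Finset (Fin 10)) :=
  [{0, 2, 3}, {0, 3, 4}, {0, 4, 2}, {1, 2, 3}, {1, 3, 5}, {1, 5, 4}, {1, 4, 2}, {6, 3, 4},
   {6, 4, 5}, {6, 5, 3},
   {6, 0, 2}, {6, 0, 3}, {6, 0, 4}, {6, 1, 2}, {6, 1, 3}, {6, 1, 4}, {6, 1, 5}, {6, 2, 3},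
   {6, 2, 4},
   {7, 8, 4}, {8, 9, 2}, {9, 7, 3}, {2, 3, 9}, {3, 4, 7}, {4, 2, 8},
   {0, 1}, {6, 7}, {6, 8}, {6, 9}]

/-- The nonempty faces of the abstract complex. -/
def IsFace (s : Finset (Fin 10)) : Prop := s.Nonempty ∧ ∃ m ∈ maxFaces, s ⊆ m

def P : Fin 10 → Fin 4 → ℤ :=
  ![![-2, 1, 3, 3], ![3, -3, -1, -3], ![0, 3, 0, 0], ![0, 1, -2, -1], ![3, -3, 3, 1],
    ![-2, 0, -3, 0], ![1, 1, -2, 1], ![-1, 0, 2, -3], ![-1, -1, 1, 0], ![-3, -3, 2, 1]]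

def cert : List (List (List ℤ)) :=
  [[[], [-1, 1, 2, -3, 0], [0, 0, -1, 1, 0], [-1, 0, 0, 0, 0], [-5, 4, 6, -5, 3], [-8, 7, 10, -13, 7], [-8, -3, 0, -2, 9], [-20, 11, 25, -31, 8], [-64, -14, 66, -111, 49], [-10, 22, 3, 5, -11], [-9, 0, -5, -1, 0], [1, 2, 2, -2, 0], [11, 37, 17, -26, 12], [-10, -3, -2, 0, 9], [4, 5, 4, -2, 1], [14, 28, 20, -17, -1], [-20, 27, 23, -35, 29], [-1, 0, 0, 0, 0], [-70, -23, -15, -6, 69], [-66, 20, -21, -5, -46], [3, -1, -1, 3, 3], [-4, 2, -1, 0, -4], [0, 0, -1, 2, 0], [-138, 156, 7, 5, -137], [-4, -4, -20, 23, 12], [-1, 1, 1, -2, 0], [-4, 1, -2, 0, -1], [-12, 7, -4, -2, -5], [-4, 2, -1, -1, -3]],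
   [[1, -1, -2, 3, 0], [], [6, 0, -11, 15, 0], [1, 0, -1, 2, 0], [8, 3, -2, 11, 4], [2, 10, 4, -4, 16], [-2, -1, 0, 0, 3], [2, 5, 4, -3, 0], [-2, 33, 32, -59, 68], [-2, 9, 20, -23, 8], [-18, -27, 2, -32, 81], [1, 2, 2, -2, 0], [2, 4, 3, -3, 0], [-212, -123, 4, 62, 281], [2, 4, 4, -3, 1], [4, 9, 6, -4, 1], [-6, 7, 12, -9, 20], [-18, -27, 2, 9, 40], [-4, -3, 0, -2, 5], [14, 5, -141, 236, 160], [28, -13, -19, 39, 24], [49, 31, 12, 35, 28], [48, 1, -60, 118, -3], [11, 18, 3, 12, 0], [0, -3, -6, 8, 1], [2, 1, -1, 2, 0], [-20, -28, -12, 5, 13], [5, 9, 10, -10, 4], [10, 15, 25, -22, 30]],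
   [[6, 0, -4, 8, 0], [2, 7, 8, -9, 0], [], [0, 0, 0, 1, 0], [4, 1, -2, 6, -1], [2, 3, 1, 1, -1], [0, 0, -1, 3, 0], [-26, 2, 12, 13, 35], [62, 196, 132, 40, -34], [-1, 0, 1, 2, 1], [9, 0, 5, 1, 0], [7, 31, 63, -65, -11], [26, 43, 24, -21, 0], [-4, 1, 12, -6, -3], [6, 8, 8, -1, -5], [9, 13, 9, 2, -17], [-34, 25, 126, -49, 2], [-4, -1, 4, -2, 3], [-5, 0, 2, 9, 0], [26, 124, 44, 56, 106], [2, 1, 2, 2, -3], [30, 41, 10, 50, -9], [20, 2, -6, 27, -6], [-40, 74, 50, 83, 109], [1, 0, -2, 3, 0], [4, 2, -1, 3, 0], [15, 20, 29, 7, -41], [0, 1, 2, 0, -1], [0, 1, 2, -2, 1]],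
   [[1, 0, 0, 0, 0], [-4, 3, 8, -14, -1], [0, -1, -4, 2, 3], [], [2, 1, 0, 1, 0], [0, 1, 1, -1, 1], [-1, 0, -3, 0, 0], [17, 15, 3, -14, -23], [0, 1, 0, -3, -2], [-5, 4, 14, -14, 10], [-2, -1, 0, -2, 3], [0, 1, 1, -2, -1], [2, 4, 2, -3, 0], [-12, 0, -3, -11, 0], [9, 17, 15, -13, 0], [-3, 0, 1, -2, 4], [0, 2, 0, -3, -3], [4, 0, 1, -2, 0], [2, 5, 1, -23, -15], [1, 3, -9, -2, 2], [0, 0, -1, 0, 0], [227, 88, 30, 41, 13], [1, 0, 0, 0, 0], [2, 1, 0, -1, -2], [0, 0, 0, -1, 0], [10, 1, -6, 11, 0], [2, 2, -1, -2, -5], [2, 3, 0, -4, -3], [-4, 1, -4, -6, 1]],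
   [[0, -6, -4, 0, -2], [-4, -9, -8, -3, -10], [-2, -3, -4, 1, 8], [-2, -1, 0, -1, 0], [], [0, 1, 0, -1, 0], [36, 2, -48, 37, -39], [0, -1, -2, -1, -4], [-2, 3, 2, -11, 2], [0, -1, 0, -1, 0], [-5, -1, -4, -5, -2], [-2, -3, 0, -1, 2], [-8, -3, 2, -11, 8], [-1, 1, -2, -3, -5], [-2, -1, 0, -1, 0], [-16, 4, 3, -14, 21], [0, 1, 0, -1, 0], [-4, -10, -2, 2, 8], [-2, -5, -12, -21, 4], [-13, -9, -32, -1, 10], [1, -1, -2, 2, 0], [-15, -184, -218, -50, -302], [-10, -24, -31, -1, -39], [-6, -17, -13, 2, -7], [3, 0, -4, 3, -2], [-2, 1, 0, -3, 0], [0, 0, -1, -1, -1], [-1, 1, 0, -3, -1], [0, 0, 0, -1, 1]],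
   [[-72, -175, -40, 14, 109], [-6, -19, -12, 1, -4], [-10, -19, -13, -16, 28], [-7, -3, 5, -4, 5], [0, -1, 0, 1, 0], [], [-3, -5, -3, 3, 0], [-12, -19, -6, -5, 2], [-3, -2, 2, -3, 0], [2, -6, 1, -1, 7], [-16, -71, -15, 15, -19], [0, -2, -1, 1, -2], [-2, -9, -4, -5, -4], [-25, -16, 14, -7, 20], [-2, -5, 0, 3, 0], [-1, -1, 0, 0, 0], [0, -1, 0, 1, 0], [-8, -42, -4, 4, 38], [-13, -16, -1, -10, 4], [4, 5, -1, 0, 6], [1, -1, -1, 1, 0], [86, -440, -232, -216, -382], [5, -2, -2, 8, 5], [-5, -16, -9, -2, -4], [7, -5, -13, 8, -5], [3, 0, -3, 4, 0], [-86, -170, -16, 16, -6], [1, -9, -4, 4, -4], [2, -11, -8, 7, -18]],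
   [[21, 5, 3, -3, -15], [-10, 10, 32, -45, 9], [0, 0, 1, -3, 0], [1, 0, 0, 1, 0], [-2, 0, 3, -2, 3], [0, 2, 3, -3, 0], [], [8, 31, 48, -70, -5], [8, 4, 0, -7, -5], [0, -1, 3, 1, 6], [2, 1, 3, -3, -3], [72, 27, 28, -6, -37], [16, 17, 12, -30, -3], [-1, 0, 6, -3, 0], [-1, 0, 2, -1, 2], [-1, 1, 3, -3, 0], [27, 24, 14, -7, -16], [0, 0, 1, -1, 0], [-1, 0, 2, -3, 0], [1, 1, -1, 0, 3], [2, 1, 6, -6, -3], [47, 19, 11, -11, -8], [2, 0, 3, -3, 0], [7, 5, 1, -2, -7], [1, 0, -1, 0, 0], [14, 4, -9, 13, 0], [18, 9, 5, -5, -22], [13, 6, 4, -4, -7], [4, 11, 24, -18, 3]],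
   [[71, 4, -17, 26, -12], [-2, -5, -4, 3, 0], [0, -1, -2, 0, 3], [-2, -5, -1, 12, 15], [2, 1, 0, 1, 0], [2, 9, 4, -3, 12], [-3, -2, -1, 1, 5], [], [2, 1, 0, -3, 0], [6, 1, 2, -3, 0], [1, -19, 9, -21, 57], [2, -1, 0, -1, 0], [2, 1, 0, -3, 0], [-35, -27, -1, 12, 48], [2, 3, 2, -1, 0], [4, 7, 4, -3, 0], [-2, 5, 8, -3, 16], [0, -2, -1, 0, 0], [-1, -13, -10, -6, 0], [1, 1, 0, 0, 0], [1, -1, -1, -1, 1], [13, 11, 7, 2, 5], [60, 4, -42, 76, -12], [2, -2, -10, 18, 0], [1, 0, -1, 0, 0], [10, 11, 4, -1, 0], [0, -3, -2, -1, 0], [2, 2, 1, -2, 0], [10, -4, -5, -16, 0]],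
   [[2, -6, -5, 8, -5], [2, -3, -5, 8, -8], [8, -73, -117, 166, -58], [5, 0, -5, 7, -3], [10, 3, -6, 17, 2], [3, 2, -2, 3, 0], [-1, -2, -2, 3, 0], [-2, -1, 0, 3, 0], [], [0, -1, 0, 1, 0], [-3, -215, -60, 7, 91], [2, -21, -8, -1, 4], [-17, -46, -30, 3, 0], [-1, -1, 0, 1, 1], [-2, -27, -12, 23, -18], [-3, -4, -2, 3, 0], [0, -1, 0, 1, 0], [-7, -12, 2, 9, 14], [-2, -1, 0, 3, 0], [-3, -57, -65, 28, 5], [7, -9, -10, -2, -8], [30, -63, -68, 41, -88], [34, -77, -64, 11, -40], [-1, -3, -7, 13, 2], [1, -1, -2, 0, 0], [2, -5, -4, 7, -4], [-1, -4, -2, 1, 0], [2, -2, -2, -4, 0], [2, -5, -4, -5, 0]],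
   [[0, -2, -8, 5, -9], [2, -3, -8, 5, -8], [4, -12, -20, -13, -8], [1, -3, -5, 5, -2], [0, 1, 0, 1, 0], [4, 3, -4, 1, -4], [0, 3, -13, 0, -24], [-2, 1, 0, 1, 0], [0, 1, 0, -1, 0], [], [0, -9, 4, -10, 27], [-2, -7, -4, 1, 0], [-2, -5, -4, -1, 0], [-35, -16, -34, -10, -7], [-2, 1, 0, 1, 0], [-6, 7, 8, -8, 23], [0, 1, 0, -1, 0], [0, -2, -1, 0, 0], [-3, -2, -7, -4, -5], [-40, -5, -41, 20, -4], [0, -3, -8, 2, -3], [-4, 8, 3, 4, 2], [0, -3, -5, 4, -3], [-7, 4, 1, 6, 4], [3, 3, -31, 10, -9], [0, 1, -1, 0, 1], [1, -4, -2, -1, 0], [0, -1, -1, -1, 0], [0, -1, -1, -1, 0]],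
   [[3, 0, -2, 4, 0], [65, 77, 11, 29, -67], [-12, 0, -21, 13, 0], [1, 0, 0, 2, 0], [5, 0, 1, 5, 1], [10, 65, 10, 9, 50], [-14, -8, -3, 3, 24], [-8, 29, 10, 4, -5], [-55, 121, 8, 36, -86], [-4, 11, -1, 2, -11], [], [10, 11, 8, -5, 0], [-1, 43, 9, -24, 0], [-2, 0, 1, 4, 0], [0, 13, 12, 10, 1], [-8, 8, 3, -3, 9], [40, 81, 44, 15, -48], [-4, 0, -1, 2, 0], [-14, 0, -3, 8, 0], [32, 85, 12, 18, -39], [6, -1, 2, 4, 3], [12, 18, -4, 45, 19], [-1, 1, -1, 2, -3], [27, 61, -3, 48, -60], [0, 5, -4, 10, -15], [2, 1, 0, 1, 0], [7, 2, 5, 1, 0], [-3, 4, 1, 1, 0], [-1, 1, 0, 0, 0]],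
   [[-2, -4, -4, 4, 0], [-4, -5, -4, 3, 0], [-45, -47, -36, 2, 59], [-5, -7, -3, 5, 6], [5, 6, 4, 2, 4], [2, 6, 1, -1, 7], [-2, -1, -2, 1, 2], [-2, 1, 0, 1, 0], [0, 2, 1, -2, 2], [2, 7, 4, -1, 0], [-9, 0, -5, -1, 0], [], [1, 2, 1, -1, 0], [-2, -1, -1, 0, 1], [2, 3, 2, -1, 0], [-1, 0, 0, 0, 1], [0, 3, 2, -1, 2], [-2, -1, -1, 1, 0], [-8, -7, -4, 2, 5], [10, 15, 1, 2, 3], [8, -3, -34, 44, 9], [4, 6, -7, 15, -5], [-2, 1, -2, 2, -3], [-11, 9, -2, 14, 1], [-42, -17, -60, 54, 1], [1, 2, 0, 0, 0], [-5, 2, -1, 1, 0], [-9, 7, -2, -2, 0], [-1, 2, 0, -1, 0]],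
   [[21, -30, -16, 51, -33], [-2, -4, -3, 3, 0], [-2, -4, -3, 3, 0], [1, 0, -1, 4, -1], [4, 0, 2, 7, -1], [1, 2, 1, -1, 1], [-4, -5, -12, 18, 15], [-2, -1, 0, 3, 0], [-3, 1, 2, 6, 0], [-6, -9, 8, 19, 12], [9, 0, 5, 1, 0], [2, -5, 0, 3, 0], [], [8, 1, 4, 10, -11], [0, -3, 0, 6, -3], [-2, -1, 0, 3, 0], [24, 23, 24, -5, 6], [-4, -5, 0, 2, 7], [-10, 0, 4, 18, 0], [-3, -5, -13, 28, 5], [11, -2, -9, 27, -18], [4, 4, 2, 1, -1], [8, -3, -2, 24, -5], [10, 32, 8, 29, 13], [4, -1, -6, 18, -15], [4, 5, 2, -1, 0], [3, 3, 8, 10, 0], [3, -1, 2, 2, 0], [3, -1, 2, 2, 0]],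
   [[1, 0, 0, 0, 0], [98, 47, -6, -16, -119], [-8, -13, -36, 6, 39], [1, 0, 0, 1, 0], [0, -4, 9, 10, 27], [5, 4, -2, -1, -8], [2, 0, -3, 3, 0], [32, 25, 5, -16, -31], [5, 6, 0, -7, -4], [10, 3, 5, -5, 2], [-1, 0, -1, -1, 0], [15, 4, 6, 0, -7], [-8, 5, 0, -18, 21], [], [14, 17, 12, -7, 0], [0, 1, 0, -1, 0], [0, 1, 0, -1, 0], [8, 0, 2, -4, 0], [-1, 0, -2, -3, 0], [1, 1, -1, -1, 0], [1, 0, 0, 0, 0], [34, 3, 16, 18, 33], [30, 1, 10, 20, -3], [80, 57, -4, -18, -105], [0, 0, -1, 0, 0], [13, 19, 3, -7, 0], [9, 2, 6, 1, 0], [2, 1, 0, -3, 0], [-1, 1, -1, -2, 0]],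
   [[0, -1, -1, 1, 0], [-1, -2, -2, 1, -1], [4, 1, -4, 2, -3], [1, -2, -3, 4, 0], [2, 1, 0, 1, 0], [2, 3, -2, -1, -2], [3, 2, -15, 4, -6], [-2, -3, -2, 1, 0], [17, 15, -8, -25, -23], [2, -1, 0, -1, 0], [0, -1, -4, -10, 3], [2, -1, 0, -1, 0], [0, 2, 0, -3, 1], [-7, 0, -6, -5, 0], [], [7, 11, 6, -6, 0], [0, 1, 0, -1, 0], [2, -1, 0, -1, 0], [-8, -5, -4, -2, 7], [1, -6, -9, 2, 4], [0, -2, -8, 0, 1], [6, 0, 0, 1, 1], [6, -11, -12, 4, -9], [0, -2, -2, 1, -1], [3, -3, -9, 8, 1], [1, 2, 0, -1, 0], [-34, -28, -38, -14, 0], [3, 3, 2, -2, 0], [-5, -2, -7, -7, 0]],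
   [[20, -7, -12, 12, -5], [-6, -10, -6, 5, 1], [8, -5, -12, 6, -9], [12, -3, -12, 14, -15], [2, -1, 0, 3, 0], [2, 2, 0, 0, 0], [2, 0, -3, 3, 0], [-4, -7, -4, 3, 0], [2, 1, 0, -3, 0], [2, -1, 0, 1, -2], [8, -29, -12, 6, -9], [2, -2, 0, 1, -1], [2, 1, 0, -3, 0], [7, 0, 6, 5, 0], [0, -1, 0, 1, 0], [], [0, -1, 0, 1, 0], [9, -5, -1, 1, -7], [5, 0, -2, -9, 0], [1, -8, -9, -2, 2], [14, -1, 10, 12, 3], [18, 16, 6, -5, -13], [12, -8, -3, 15, 3], [16, 15, 5, -6, -12], [5, 1, -3, 0, -3], [2, 1, 0, 1, 0], [1, -28, -9, 9, 0], [3, 3, 2, -2, 0], [1, -1, 0, 0, 0]],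
   [[0, -6, -4, 5, 3], [-38, -57, -40, 25, 2], [-2, -1, -7, -7, 3], [-1, -3, 2, 4, 8], [18, -1, -12, 23, 0], [9, 5, -6, 6, 0], [-19, -20, -26, 15, 16], [2, -9, -8, 5, -14], [3, -1, -2, -6, 0], [6, -11, -4, -3, 0], [-10, -8, -2, -10, 24], [0, -3, -1, 2, -1], [-2, -51, -40, -17, -10], [-7, 0, -6, -5, 0], [-14, -17, -12, 7, 0], [-7, -3, -6, -2, 0], [], [-5, -9, -1, 5, 7], [1, -10, -14, -7, -12], [4, -21, -22, 13, -22], [-17, 1, -17, -14, -3], [28, -49, -62, 68, -7], [56, -58, -78, 124, 26], [13, -28, -43, 32, -59], [12, 1, -34, -3, -28], [2, 5, -12, 1, 0], [-1, -2, -2, -1, 0], [-1, -1, -2, -2, 0], [-1, -1, -2, -2, 0]],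
   [[7, 0, -1, 2, 0], [90, 53, -10, -4, -77], [30, 4, -17, -15, -12], [1, 0, -4, 8, 0], [5, 6, 4, 0, 2], [16, 29, 8, -8, 1], [-4, -1, -4, 2, 3], [0, 4, 2, 0, 0], [9, 4, -4, -18, -3], [-2, 11, 5, 1, 0], [-1, 0, -1, -1, 0], [10, 11, 8, -5, 0], [0, 0, 0, -1, 1], [-7, 0, -6, -5, 0], [-2, 17, 8, 1, 0], [-1, 0, 0, 0, 1], [8, 20, -18, -15, -49], [], [1, 0, -3, -7, 0], [-1, 1, -1, 2, 1], [11, -3, -1, -1, 9], [4, 4, 3, 2, 4], [1, 0, 0, 0, 0], [-4, -1, 0, 4, 5], [-2, -2, -10, 1, 6], [4, 9, -1, -2, 1], [-16, 4, -5, 2, 0], [1, 1, 0, -2, 0], [0, 4, 1, -2, 0]],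
   [[46, -13, 4, 18, 39], [57, 65, 21, -8, -31], [6, 0, -11, 15, 0], [0, -1, 0, 2, 3], [4, 3, 0, 6, 3], [15, 32, 14, -7, 16], [2, 0, -3, 3, 0], [-3, 1, 2, 6, 0], [3, 4, 2, -3, 0], [-1, 0, 1, 2, 1], [9, 0, 5, 1, 0], [2, 2, 1, 0, -2], [2, 1, 0, -3, 0], [1, 0, 4, 7, 0], [-4, 1, 4, 2, 9], [1, 8, 6, 3, 0], [-3, 2, 7, 0, 15], [-1, 0, 3, 7, 0], [], [3, 6, 1, 11, -5], [12, -7, -16, -2, 21], [30, 28, 24, 19, 39], [37, 6, -10, 61, -18], [32, 18, -10, 13, -25], [1, 0, -1, 0, 0], [10, 5, 0, 6, -3], [2, 9, 10, 9, 0], [3, 1, 0, -4, 0], [1, 2, 2, 1, 0]],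
   [[4, -1, 2, 0, 3], [-111, -115, 78, -153, -93], [-92, -163, -27, -143, 11], [-9, -5, 15, -4, -7], [-24, 18, 54, 24, 27], [-41, -9, 31, -8, 11], [-7, -5, 1, 0, 3], [-16, -2, 26, -45, 9], [-2, 2, 3, 2, 1], [6, -10, -1, -5, 1], [7, -6, 3, -1, 6], [15, -13, 8, 0, 14], [-12, -26, -13, -8, 5], [-20, -16, 4, 7, 4], [-20, -21, 20, -2, 11], [-9, -5, 4, -4, 4], [-17, -9, 14, -2, 8], [4, -9, 10, -2, 6], [-8, -16, -7, -12, 9], [], [7, -8, 9, -11, -10], [0, 36, 25, 22, 16], [107, -34, 69, -21, 102], [-5, -2, 2, 3, 0], [3, -19, -16, -18, 0], [-30, -43, 13, -4, -62], [-11, 2, 11, 11, 0], [1, -3, -2, -2, 0], [1, 6, 6, 2, 3]],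
   [[-2, 1, 3, -5, -3], [-2, 1, 5, -7, -2], [-2, 1, 5, -6, -3], [8, -3, -2, 16, 9], [8, -2, -1, 14, 10], [-43, 14, 16, -75, -41], [-4, 1, 6, 0, -3], [-28, 15, 8, 2, -9], [-7, 9, 10, -2, 4], [-1, 1, 2, 0, 0], [-1, 0, 1, -3, 0], [1, 0, 2, -2, 2], [-4, 1, 0, -4, -1], [1, 0, 3, 1, 0], [-8, 5, 12, -18, -3], [-4, 1, 0, -2, 1], [1, 1, 5, 3, 5], [-4, 0, 2, -4, 0], [-8, -1, 0, -6, 3], [-1, 1, 1, 2, -1], [], [34, -4, 18, 14, 40], [0, 0, 1, -2, 0], [-7, 3, 5, 12, 3], [-1, 0, -1, 6, 0], [-4, 1, -4, 0, 3], [1, 1, 4, 3, -1], [-3, 1, -1, 0, -1], [1, 1, 3, 0, 0]],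
   [[-16, 5, -4, -4, -17], [-20, -8, -6, -7, -11], [-12, -2, -4, -14, 6], [-293, 6, 65, -142, -18], [-54, -13, 132, 11, 288], [-27, 60, 52, 3, 102], [-141, -106, -33, 33, 122], [-9, -5, 3, -4, 7], [-2, 3, 4, -5, 6], [5, -8, -2, -3, 1], [-30, -1, -10, -20, 3], [-6, 0, 0, -3, -3], [-2, 0, 0, -3, 5], [-4, 0, -2, -2, -2], [-30, 4, 1, -12, -14], [-32, -14, -12, -1, 23], [-10, 243, 356, -241, 392], [3, -27, -1, -13, 12], [-7, -53, -43, -39, -21], [0, -29, -20, -18, -14], [3, -9, -5, -7, -1], [], [0, 0, 1, -2, 0], [-58, -2, -8, 14, 0], [-8, 2, -3, -3, -7], [-13, 0, -9, -4, -2], [-4, -4, -5, -2, 0], [0, -2, -1, -2, -1], [1, -3, -2, -2, 0]],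
   [[-3, 0, 4, -8, 0], [-18, 21, 70, -106, 13], [-1, 0, 1, -3, 0], [-1, 0, 0, 0, 0], [-25, 14, 15, -21, -5], [-78, 265, 248, -193, 368], [-2, -3, -6, 6, 9], [-4, 3, 4, -2, 3], [-30, 51, 74, -91, 59], [-4, 3, 5, -4, 3], [0, -1, 0, -2, 3], [1, 0, 2, -2, 2], [-8, -1, 8, -30, 19], [-17, 2, -8, -9, -6], [4, 9, 20, -2, 29], [-5, 2, 0, -3, 6], [5, 63, 109, -23, 173], [-2, 0, 1, -2, 0], [-29, -9, 15, -65, 27], [-26, 8, -15, 0, -17], [-1, 0, -1, -1, 0], [-4, 6, 1, 4, 0], [], [-534, 100, -4, 209, 101], [0, -1, -4, 4, 3], [-8, 1, -8, -2, 5], [-58, 16, -19, 6, -25], [-4, 1, -2, 0, -1], [-1, 1, 0, 0, 0]],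
   [[58, -8, 93, -170, 24], [2, 7, 8, -9, 0], [-82, -80, -63, -45, 240], [-24, -17, -1, 8, 23], [15, 21, 27, -6, 27], [13, 35, 8, -8, 50], [-16, -9, -3, 3, 27], [-1, 1, 5, -9, 0], [5, -4, -4, -10, -5], [-1, -1, 2, -1, 4], [-22, -50, -21, -6, 19], [0, -1, 0, 0, 1], [6, -8, -2, -37, 1], [-14, -13, -4, 5, 13], [-10, -8, 0, 3, 11], [-51, -46, -15, 15, 45], [-1, 2, 3, -2, 6], [-22, -45, -4, -18, 19], [23, -7, -9, -55, -8], [2, 3, 1, 0, 0], [1, -1, -1, -1, 1], [16, -24, -7, -10, 0], [120, -45, 82, -74, 135], [], [3, -4, -6, -8, 5], [29, 34, 13, -8, -6], [-1, -4, -2, -1, 0], [47, -67, -30, -103, 10], [6, -8, -2, -20, 1]],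
   [[-12, 3, 40, -46, -9], [-2, 8, 20, -26, -4], [-6, 0, 11, -15, 0], [-1, -2, -1, 6, 6], [5, 2, 3, 10, 14], [-3, 5, 7, -2, 5], [-1, 0, 1, 0, 0], [-4, 1, 4, 2, 1], [-3, 1, 2, 6, 0], [-5, 3, 7, 0, 6], [-1, -2, 3, -9, 6], [2, 16, 39, -54, 6], [-2, -1, 0, -3, 6], [-10, -8, 24, 42, 24], [-10, 8, 28, -6, 20], [-10, 3, 13, -2, 2], [4, 5, 12, 6, 9], [-4, -1, 4, 6, 3], [-1, 0, 1, 0, 0], [-2, 19, 17, 12, 0], [1, 0, 1, 1, 0], [53, -12, 19, 21, 50], [0, 1, 8, -10, -3], [-3, 1, 1, 4, 5], [], [-3, 6, 21, -20, -15], [-13, 5, 18, 26, -4], [2, 7, 9, -5, 0], [0, 3, 4, -6, 7]],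
   [[0, 0, 1, -1, 0], [-6, -6, -1, -1, 0], [-5, -1, 3, -6, 0], [1, 0, 0, 1, 0], [1, 0, 0, 1, 0], [-14, -3, 12, -15, 0], [-2, 0, 3, -3, 0], [-14, -17, -8, 5, 6], [2, 51, 40, -59, 86], [-1, -2, 1, 0, 1], [-1, -2, 3, -3, 0], [-2, -4, -1, 1, 0], [-5, -7, -4, 3, 0], [0, -1, 0, 1, 0], [0, -1, 0, 1, 0], [-7, -10, -6, 5, 0], [-2, -1, 12, -5, 0], [-20, -17, 12, -10, 11], [-14, -7, 0, -6, 15], [2, 3, -3, 2, 8], [3, -2, -3, 6, 3], [64, 30, 37, 27, 71], [8, -1, 8, 2, 3], [-19, -24, -8, 3, 6], [2, -5, -19, 18, 15], [], [5, -54, -1, 47, 0], [4, 3, 4, -1, 0], [6, -1, 4, 3, 0]],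
   [[95, -6, 36, -10, 18], [13, 18, 8, -3, -8], [-2, -7, -15, -8, 21], [-5, -11, 11, 15, 33], [0, -4, 9, 10, 17], [83, 179, 3, -110, -39], [-31, -18, -10, 15, 54], [1, 3, 2, 0, 0], [3, 6, 2, -5, 0], [-4, 7, 3, 3, 0], [-1, 0, -1, -1, 0], [8, 1, 4, -1, 0], [0, 1, 0, -1, 0], [-3, 0, -2, -1, 0], [2, 2, 2, 0, 0], [1, 6, 2, -3, 0], [1, 4, 2, -1, 0], [5, 0, 2, -1, 0], [1, -3, -4, -6, 0], [2, 1, -2, -2, 0], [5, -2, 1, -1, 2], [-2, 5, 2, 2, 0], [102, -44, 35, -5, 40], [2, 8, 4, 2, 0], [17, -4, -21, -23, 1], [-32, 20, -38, -27, 0], [], [-1, 1, 0, 0, 0], [-1, 1, 0, 0, 0]],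
   [[10, -9, 4, 0, 12], [-10, -21, -20, 20, -5], [-4, -5, -6, 3, 3], [0, -4, -1, 5, 2], [1, -3, 2, 7, 5], [2, 9, 4, -1, 10], [-2, -1, -2, 0, 1], [-9, -3, -1, 10, 0], [-1, 2, 2, 3, 0], [0, -2, 0, 2, 0], [-3, 0, -2, -1, 0], [-2, -3, -2, 1, 0], [-6, -3, -4, 1, 0], [-3, -1, -2, 0, 0], [0, -1, 0, 1, 0], [-7, -5, -6, 0, 0], [0, -2, 0, 2, 0], [0, -1, 0, 1, 0], [-1, 0, 0, 1, 0], [0, -2, -2, 0, 0], [3, -1, 1, 0, 1], [10, -10, -1, -2, 4], [12, -7, 4, -2, 9], [-43, -12, -3, 48, 54], [-1, -1, -2, 2, 0], [-2, -2, -3, 1, 0], [-1, -1, -1, 0, 0], [], [1, 0, 1, 0, 1]],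
   [[8, -9, 0, 2, 11], [-2, -2, -4, 5, -5], [-23, -13, -36, 12, 10], [-3, -5, -8, 12, 1], [18, -11, 7, 32, 16], [-9, 39, 30, -30, 68], [0, -3, -4, 6, -3], [-1, 1, 1, 2, 0], [-1, 2, 2, 3, 0], [0, -1, 0, 1, 0], [-2, -4, -3, 0, 0], [2, -3, 0, 1, 0], [-4, -5, -6, -3, 0], [1, 0, 2, 3, 0], [0, -1, 0, 1, 0], [-1, 0, 0, 1, 0], [1, 0, 2, 3, 0], [0, 0, 1, 2, 0], [-2, -4, -3, 0, 0], [-4, 8, 4, 9, 0], [-2, -1, -4, 0, -1], [4, -4, -1, 2, 0], [0, 0, -1, 2, 0], [-13, 23, 10, 32, -5], [-3, 0, -3, 18, -7], [-2, 0, -2, 0, 0], [-2, 0, -1, 0, 0], [-3, 0, -2, 0, -1], []]]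

def cert2 : List (List (List ℤ)) :=
  [[[-1, 0, 0, 0, 0], [], [5, 4, 2, 0, 0], [-3, 0, -2, 0, 0], [], [], [], [], [], []],
   [[1, 2, 1, 0, 0], [], [], [4, 5, 1, 0, 0], [5, 4, 2, 0, 0], [], [], [], [], []],
   [[-1, 0, 1, 0, 0], [], [4, 5, 1, 0, 0], [], [3, 0, 2, 0, 0], [], [], [], [], []],
   [[], [1, 0, 0, 0, 0], [7, 6, 3, 0, 0], [-1, 0, -3, 0, 0], [], [], [], [], [], []],
   [[], [3, -4, -2, 0, 0], [], [9, 11, -6, 0, 0], [], [-7, -6, -3, 0, 0], [], [], [], []],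
   [[], [3, 1, -2, 0, 0], [], [], [-9, -11, 6, 0, 0], [-1, -1, 0, 0, 0], [], [], [], []],
   [[], [1, 0, -1, 0, 0], [1, 1, 0, 0, 0], [], [1, 0, 3, 0, 0], [], [], [], [], []],
   [[], [], [], [-1, -3, -2, 0, 0], [0, -2, -1, 0, 0], [], [1, 2, 1, 0, 0], [], [], []],
   [[], [], [], [], [3, -7, -2, 0, 0], [-1, -3, -2, 0, 0], [3, 1, -2, 0, 0], [], [], []],
   [[], [], [], [-3, 7, 2, 0, 0], [], [0, -2, -1, 0, 0], [3, -4, -2, 0, 0], [], [], []],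
   [[-2, 0, -1, 0, 0], [], [5, 1, 3, 0, 0], [], [], [], [-3, 0, -2, 0, 0], [], [], []],
   [[0, 2, 1, 0, 0], [], [], [-5, -1, -3, 0, 0], [], [], [5, 4, 2, 0, 0], [], [], []],
   [[1, 3, 2, 0, 0], [], [], [], [5, 1, 3, 0, 0], [], [4, 5, 1, 0, 0], [], [], []],
   [[], [2, 0, 1, 0, 0], [7, 5, 6, 0, 0], [], [], [], [-1, 0, -3, 0, 0], [], [], []],
   [[], [0, -2, -1, 0, 0], [], [-7, -5, -6, 0, 0], [], [], [7, 6, 3, 0, 0], [], [], []],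
   [[], [-1, -3, -2, 0, 0], [], [], [7, 5, 6, 0, 0], [], [1, 1, 0, 0, 0], [], [], []],
   [[], [3, -7, -2, 0, 0], [], [], [], [-7, -5, -6, 0, 0], [9, 11, -6, 0, 0], [], [], []],
   [[], [], [0, 2, 1, 0, 0], [-2, 0, -1, 0, 0], [], [], [1, 0, 0, 0, 0], [], [], []],
   [[], [], [1, 3, 2, 0, 0], [], [2, 0, 1, 0, 0], [], [1, 0, -1, 0, 0], [], [], []],
   [[], [], [], [], [2, -1, 1, 0, 0], [], [], [0, 1, 1, 0, 0], [-2, -3, -1, 0, 0], []],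
   [[], [], [-1, 1, 0, 0, 0], [], [], [], [], [], [2, 0, 3, 0, 0], [-1, 0, -1, 0, 0]],
   [[], [], [], [-6, 4, -3, 0, 0], [], [], [], [-4, 6, 3, 0, 0], [], [-2, -2, -1, 0, 0]],
   [[], [], [-4, 6, 3, 0, 0], [-2, 0, -3, 0, 0], [], [], [], [], [], [-1, 0, 0, 0, 0]],
   [[], [], [], [2, 3, 1, 0, 0], [2, 2, 1, 0, 0], [], [], [1, 2, 1, 0, 0], [], []],
   [[], [], [0, 1, 1, 0, 0], [], [1, 0, 1, 0, 0], [], [], [], [-1, 0, 1, 0, 0], []],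
   [[-1, -1, 0, 0, 0], [-1, -2, 0, 0, 0], [], [], [], [], [], [], [], []],
   [[], [], [], [], [], [], [0, 1, 0, 0, 0], [-1, 1, 0, 0, 0], [], []],
   [[], [], [], [], [], [], [-1, 0, -1, 0, 0], [], [-2, 0, -1, 0, 0], []],
   [[], [], [], [], [], [], [-2, 0, -3, 0, 0], [], [], [-2, 0, -1, 0, 0]]]

def M (k : Fin 29) : Finset (Fin 10) := maxFaces.getD k ∅

def ev (c : List ℤ) (i : Fin 10) : ℤ :=
  c.getD 0 0 * P i 0 + c.getD 1 0 * P i 1 + c.getD 2 0 * P i 2 + c.getD 3 0 * P i 3 + c.getD 4 0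

def c1 (k l : Fin 29) : List ℤ := (cert.getD k []).getD l []

def c2 (k : Fin 29) (v : Fin 10) : List ℤ := (cert2.getD k []).getD v []

lemma chk1 : ∀ k l : Fin 29, k ≠ l → ∀ i, (i ∈ M k → i ∉ M l → 0 < ev (c1 k l) i) ∧
    (i ∈ M k → 0 ≤ ev (c1 k l) i) ∧ (i ∈ M l → ev (c1 k l) i ≤ 0) := by
  decide +kernel

lemma chk2 : ∀ k : Fin 29, ∀ v ∈ M k, ∀ i ∈ M k, (ev (c2 k v) i = 0 ↔ i ≠ v) := by
  decide +kernel

lemma chk3 : ∀ m ∈ maxFaces, ∃ k, M k = m := by decide +kernel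

abbrev E : Type := Fin 4 → ℝ

def p (i : Fin 10) : E := fun j => P i j

def lin (c : List ℤ) (y : E) : ℝ :=
  c.getD 0 0 * y 0 + c.getD 1 0 * y 1 + c.getD 2 0 * y 2 + c.getD 3 0 * y 3

lemma lin_p (c : List ℤ) (i : Fin 10) : lin c (p i) + c.getD 4 0 = ev c i := by
  simp [lin, p, ev]

lemma lin_sum {ι : Type} (c : List ℤ) (s : Finset ι) (w : ι → ℝ) (q : ι → E) :
    lin c (∑ y ∈ s, w y • q y) + (∑ y ∈ s, w y) * c.getD 4 0 =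
      ∑ y ∈ s, w y * (lin c (q y) + c.getD 4 0) := by
  simp only [lin, Finset.sum_apply, Pi.smul_apply, smul_eq_mul, mul_sum, sum_mul,
    ← sum_add_distrib]
  exact sum_congr rfl fun y _ => by ring

lemma p_inj : Function.Injective p := by
  have h : Function.Injective P := by decide +kernel
  intro i j hij
  apply h; funext k
  have := congrFun hij k
  simpa [p] using this

lemma indepM (k : Fin 29) : AffineIndependent ℝ ((↑) : ((M k).image p : Finset E) → E) := by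
  rw [affineIndependent_iff]
  intro s w h0 h1 e he
  obtain ⟨v, hv, hve⟩ := mem_image.1 e.2
  have h := lin_sum (c2 k v) s w (fun y => (y : E))
  rw [h0, h1, sum_eq_single_of_mem e he] at h
  · rw [← hve, lin_p] at h
    have h2 : ev (c2 k v) v ≠ 0 := fun h3 => (chk2 k v hv v hv).1 h3 rfl
    have h3 : (ev (c2 k v) v : ℝ) ≠ 0 := by exact_mod_cast h2
    simp only [lin, Pi.zero_apply, mul_zero, add_zero, zero_mul] at h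
    exact (mul_eq_zero.1 h.symm).resolve_right h3
  · intro y _ hy
    obtain ⟨u, hu, huy⟩ := mem_image.1 y.2
    have : u ≠ v := fun h => hy (Subtype.ext (by rw [← huy, ← hve, h]))
    rw [← huy, lin_p, (chk2 k v hv u hu).2 this]; simp

lemma step (k l : Fin 29) (s t : Finset (Fin 10)) (hs : s ⊆ M k) (ht : t ⊆ M l) (x : E)
    (h1 : x ∈ convexHull ℝ ((s.image p : Finset E) : Set E))
    (h2 : x ∈ convexHull ℝ ((t.image p : Finset E) : Set E)) :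
    x ∈ convexHull ℝ (((s ∩ M l).image p : Finset E) : Set E) := by
  by_cases hkl : k = l
  · subst hkl; rwa [inter_eq_left.2 hs]
  obtain ⟨a, ha0, ha1, hax⟩ := mem_convexHull'.1 h1
  obtain ⟨b, hb0, hb1, hbx⟩ := mem_convexHull'.1 h2
  have e1 := lin_sum (c1 k l) (s.image p) a id
  have e2 := lin_sum (c1 k l) (t.image p) b id
  simp only [id, hax, hbx, ha1, hb1] at e1 e2
  have n2 : ∑ y ∈ t.image p, b y * (lin (c1 k l) y + (c1 k l).getD 4 0) ≤ 0 :=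
    sum_nonpos fun y hy => by
      obtain ⟨i, hi, rfl⟩ := mem_image.1 hy
      rw [lin_p]
      exact mul_nonpos_of_nonneg_of_nonpos (hb0 _ hy)
        (by exact_mod_cast (chk1 k l hkl i).2.2 (ht hi))
  have n1 : ∀ y ∈ s.image p, 0 ≤ a y * (lin (c1 k l) y + (c1 k l).getD 4 0) := fun y hy => by
    obtain ⟨i, hi, rfl⟩ := mem_image.1 hy
    rw [lin_p]
    exact mul_nonneg (ha0 _ hy) (by exact_mod_cast (chk1 k l hkl i).2.1 (hs hi))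
  have z := (sum_eq_zero_iff_of_nonneg n1).1 (le_antisymm (by linarith) (sum_nonneg n1))
  have sub : (s ∩ M l).image p ⊆ s.image p := image_subset_image inter_subset_left
  have a0 : ∀ y ∈ s.image p, y ∉ (s ∩ M l).image p → a y = 0 := fun y hy hn => by
    obtain ⟨i, hi, rfl⟩ := mem_image.1 hy
    have hil : i ∉ M l := fun h => hn (mem_image_of_mem _ (mem_inter.2 ⟨hi, h⟩))
    have := z _ hy
    rw [lin_p] at this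
    have h3 : (0 : ℝ) < ev (c1 k l) i := by exact_mod_cast (chk1 k l hkl i).1 (hs hi) hil
    exact (mul_eq_zero.1 this).resolve_right h3.ne'
  refine mem_convexHull'.2 ⟨a, fun y hy => ha0 y (sub hy), ?_, ?_⟩
  · rw [sum_subset sub a0, ha1]
  · rw [sum_subset sub fun y hy hn => by rw [a0 y hy hn, zero_smul], hax]

theorem result : ∃ (K : Geometry.SimplicialComplex ℝ (Fin 4 → ℝ)) (q : Fin 10 → Fin 4 → ℝ),
    Function.Injective q ∧ K.faces = {t | ∃ s, IsFace s ∧ t = s.image q} := by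
  have hf : ∀ s, IsFace s → ∃ k, s ⊆ M k := fun s ⟨_, m, hm, h⟩ => by
    obtain ⟨k, rfl⟩ := chk3 m hm
    exact ⟨k, h⟩
  refine ⟨⟨⟨{t | ∃ s, IsFace s ∧ t = s.image p}, ?_⟩, ?_, ?_⟩, p, p_inj, rfl⟩
  · rintro _ ⟨s, hs, rfl⟩
    refine ⟨hs.1.image _, fun t ht hne => ?_⟩
    obtain ⟨u, hu, rfl⟩ := subset_image_iff.1 ht
    obtain ⟨m, hm, h⟩ := hs.2
    exact ⟨u, ⟨image_nonempty.1 hne, m, hm, hu.trans h⟩, rfl⟩
  · rintro _ ⟨s, hs, rfl⟩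
    obtain ⟨k, hk⟩ := hf s hs
    exact (indepM k).mono (coe_subset.2 (image_subset_image hk))
  · rintro _ _ ⟨s, hs, rfl⟩ ⟨t, ht, rfl⟩ x ⟨h1, h2⟩
    obtain ⟨k, hk⟩ := hf s hs
    obtain ⟨l, hl⟩ := hf t ht
    have h3 := step k l s t hk hl x h1 h2
    have h4 := (indepM l).convexHull_inter (image_subset_image (inter_subset_right (s₁ := s)))
      (image_subset_image hl)
    have h5 : x ∈ convexHull ℝ ((((s ∩ M l).image p : Finset E) : Set E) ∩ (t.image p : Finset E)) := by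
      rw [h4]; exact ⟨h3, h2⟩
    exact convexHull_mono (Set.inter_subset_inter_left _
      (coe_subset.2 (image_subset_image inter_subset_left))) h5

end Pool.Agent.Results.MP_cc703c_co.Realize
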